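import Pool.Agent.Lib.OrlovSig.Core

/-!
# The abstract theorem in all degrees

Complement to `OrlovSig.Core`: cancellation against known degrees, or absence of primitive
classes, gives the equivalence of all the graded pieces.
-/

set_option autoImplicit false

namespace Pool.Agent.Lib.OrlovChow

open Pool.Agent.Lib.OrlovSig

theorem block_parity {d i j : ℕ} (hi : i ≤ d) (hj : j ≤ d) (h : block d i = block d j) :
    i % 2 = j % 2 := by
  unfold block at h
  split_ifs at h <;> omega

/-- If one sequence is constant and the other one is nondecreasing from the same start, and the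
block sums agree, then the two sequences agree below the middle. -/
theorem squeeze (t t' : ℕ → ℚ) (d e : ℕ) (he : e < 2) (hb : t e = t' e)
    (hmono : ∀ j, j + 2 ≤ d → t' j ≤ t' (j + 2))
    (hst : ∀ j, 1 < j → j < d → j % 2 = e → t j = t (j - 2))
    (hblk : ∀ a, ∑ j ∈ Finset.range (2 * d + 1), (if block d j = a then t j else 0) =
      ∑ j ∈ Finset.range (2 * d + 1), (if block d j = a then t' j else 0)) :
    ∀ j, j < d → j % 2 = e → t j = t' j := by
  have h1 : ∀ j, j < d → j % 2 = e → t j = t e ∧ t' e ≤ t' j := by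
    intro j
    induction j using Nat.strong_induction_on with
    | _ j ih =>
      intro hj hje
      rcases Nat.lt_or_ge 1 j with h | h
      · obtain ⟨i1, i2⟩ := ih (j - 2) (by omega) (by omega) (by omega)
        refine ⟨(hst j h hj hje).trans i1, i2.trans ?_⟩
        have h2 := hmono (j - 2) (by omega)
        rwa [show j - 2 + 2 = j by omega] at h2
      · have h2 : j = e := by omega
        rw [h2]
        exact ⟨rfl, le_refl _⟩
  have hle : ∀ j, j < d → j % 2 = e → t j ≤ t' j := by
    intro j hj hje
    obtain ⟨i1, i2⟩ := h1 j hj hje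
    rw [i1, hb]
    exact i2
  -- equality in a block of small degrees
  have h2 : ∀ a, (∀ j, block d j = a → j < d ∧ j % 2 = e) →
      ∀ j, block d j = a → t j = t' j := by
    intro a ha j hj
    have h3 : ∑ j ∈ Finset.range (2 * d + 1), (if block d j = a then t' j - t j else 0) = 0 := by
      have h4 := hblk a
      rw [← sub_eq_zero, ← Finset.sum_sub_distrib] at h4
      rw [← neg_eq_zero, ← Finset.sum_neg_distrib]
      refine Eq.trans (Finset.sum_congr rfl (fun i _ => ?_)) h4
      split_ifs
      · ring
      · simp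
    have h4 := (Finset.sum_eq_zero_iff_of_nonneg (fun i _ => ?_)).1 h3 j
      (Finset.mem_range.2 (by have := (ha j hj).1; omega))
    · rw [if_pos hj] at h4
      linarith
    · split_ifs with h5
      · have := hle i (ha i h5).1 (ha i h5).2
        linarith
      · exact le_refl _
  intro j hj hje
  by_cases hp : j % 2 = d % 2
  · by_cases h4 : j % 4 = d % 4
    · -- block zero below the middle
      have h5 : block d (j + 2) = 1 := by
        unfold block
        split_ifs <;> omega
      have h6 := h2 1 (fun i hi => by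
        unfold block at hi
        split_ifs at hi <;> omega) (j + 2) h5
      obtain ⟨i1, i2⟩ := h1 j hj hje
      obtain ⟨i3, -⟩ := h1 (j + 2) (by omega) (by omega)
      have h7 := hmono j (by omega)
      rw [← h6, i3, hb] at h7
      rw [i1, hb]
      exact le_antisymm i2 h7
    · have h5 : block d j = 1 := by
        unfold block
        split_ifs <;> omega
      exact h2 1 (fun i hi => by
        unfold block at hi
        split_ifs at hi <;> omega) j h5
  · have h5 : block d j = 3 := by
      unfold block
      split_ifs <;> omega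
    exact h2 3 (fun i hi => by
      unfold block at hi
      split_ifs at hi <;> omega) j h5

namespace Pkg'

variable {R W : Type*} [Ring R] [Algebra ℚ R] [AddCommGroup W] [Module R W]
  {q : W →+ W →+ ℝ} {d : ℕ}

/-- The inverse of `L` on the part of degree `j + 2` which is in the image of `L`. -/
theorem down_up (P : Pkg R W q d) {j : ℕ} (hj : j + 2 ≤ d) :
    (P.θ j * (P.L ^ (d - j - 1) * P.π (j + 2))) * P.L = P.π j ∧
    (P.θ j * (P.L ^ (d - j - 1) * P.π (j + 2))) * (P.L * P.π j) = P.π j := by
  have h1 : (P.θ j * (P.L ^ (d - j - 1) * P.π (j + 2))) * P.L = P.π j := by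
    have h2 := P.θ_L j (by omega)
    calc (P.θ j * (P.L ^ (d - j - 1) * P.π (j + 2))) * P.L
        = P.θ j * (P.L ^ (d - j - 1) * (P.π (j + 2) * P.L)) := by simp only [mul_assoc]
      _ = P.θ j * (P.L ^ (d - j - 1) * (P.L * P.π j)) := by rw [P.L_π]
      _ = P.θ j * (P.L ^ (d - j) * P.π j) := by
          rw [← mul_assoc (P.L ^ (d - j - 1)), ← pow_succ, show d - j - 1 + 1 = d - j by omega]
      _ = P.π j := h2
  refine ⟨h1, ?_⟩
  rw [← mul_assoc, h1, P.π_self]

theorem tr_mono [Module.Finite ℚ R] (P : Pkg R W q d) (p : R) (hp : p * p = p) {j : ℕ}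
    (hj : j + 2 ≤ d) : tr p (P.π j) ≤ tr p (P.π (j + 2)) := by
  refine tr_le_of_factor p (P.π j) (P.π (j + 2)) (P.θ j * (P.L ^ (d - j - 1) * P.π (j + 2)))
    (P.L * P.π j) hp (P.π_self j) (P.π_self _) (down_up P hj).2 ?_
  rw [mul_assoc, mul_assoc, P.π_self]

/-- If there are no primitive classes in degree `j + 2`, the projectors onto the parts of degree
`j` and `j + 2` have the same traces. -/
theorem tr_stable [FaithfulSMul R W] (P : Pkg R W q d) (p : R) {j : ℕ} (hj : j + 2 ≤ d)
    (hprim : ∀ x : W, P.π (j + 2) • x = x → P.L ^ (d - (j + 2) + 1) • x = 0 → x = 0) :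
    tr p (P.π (j + 2)) = tr p (P.π j) := by
  set M : R := P.θ j * (P.L ^ (d - j - 1) * P.π (j + 2)) with hM
  have h1 : P.L * M = P.π (j + 2) := by
    refine FaithfulSMul.eq_of_smul_eq_smul (α := W) (fun w => ?_)
    have h2 : P.π (j + 2) • w - (P.L * M) • w = 0 := by
      refine hprim _ ?_ ?_
      · rw [smul_sub, ← mul_smul, ← mul_smul, P.π_self]
        congr 2
        have h3 : P.π (j + 2) * (P.L * M) = P.L * (P.π j * M) := by
          rw [← mul_assoc, ← P.L_π, mul_assoc]
        rw [h3, hM, ← mul_assoc (P.π j), P.π_θ j (by omega)]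
      · rw [smul_sub, ← mul_smul, ← mul_smul, sub_eq_zero]
        congr 1
        have e1 : d - (j + 2) + 1 = d - j - 1 := by omega
        have e2 : d - j - 1 + 1 = d - j := by omega
        rw [e1]
        have h3 : P.L ^ (d - j) * P.θ j = P.π (2 * d - j) := P.L_θ j (by omega)
        calc P.L ^ (d - j - 1) * P.π (j + 2)
            = P.π (2 * d - j) * (P.L ^ (d - j - 1) * P.π (j + 2)) := by
              rw [P.L_pow_π (d - j - 1) (j + 2), ← mul_assoc,
                show j + 2 + 2 * (d - j - 1) = 2 * d - j by omega, P.π_self]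
          _ = P.L ^ (d - j) * P.θ j * (P.L ^ (d - j - 1) * P.π (j + 2)) := by rw [h3]
          _ = P.L ^ (d - j - 1) * (P.L * M) := by
              rw [← mul_assoc (P.L ^ (d - j - 1)), ← pow_succ, e2, hM, mul_assoc]
    exact (sub_eq_zero.1 h2).symm
  have h2 : M * P.L = P.π j := (down_up P hj).1
  rw [← h1, tr_mul_comm, h2]

/-- The abstract theorem in all degrees. -/
theorem core2 [Module.Finite ℚ R] [FaithfulSMul R W] (P P' : Pkg R W q d)
    (hsymm : ∀ x y, q x y = q y x)
    (hreg : ∀ x : R, ∃ z : R, x * z * x = x) (u v : R) (hvu : v * u = P.ε) (huv : u * v = P'.ε)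
    (huE : u * P.E = P'.E * u) (hvE : v * P'.E = P.E * v)
    (hiso : ∀ x, P.E • x = x → q (P'.DE • (u • x)) (u • x) = q (P.DE • x) x)
    (h0 : MvN (P.π 0) (P'.π 0)) (K : Set ℕ) (hK : ∀ i ∈ K, MvN (P.π i) (P'.π i))
    (h : ∀ e < 2, (∀ i ≤ d, ∀ j ≤ d, i % 2 = e → j % 2 = e → block d i = block d j →
        i ∉ K → j ∉ K → 0 < i → 0 < j → i = j) ∨
      (1 ∈ K ∧ ∀ j, 1 < j → j < d → j % 2 = e → ∀ x : W, P.π j • x = x →
        P.L ^ (d - j + 1) • x = 0 → x = 0)) :
    ∀ j ≤ 2 * d, MvN (P.π j) (P'.π j) := by
  obtain ⟨c1, c2, c3⟩ := P.core P' hsymm hreg u v hvu huv huE hvE hiso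
  have key : ∀ j ≤ d, MvN (P.π j) (P'.π j) := by
    intro j hj
    rcases Nat.eq_zero_or_pos j with hj0 | hj0
    · rw [hj0]
      exact h0
    rcases h (j % 2) (Nat.mod_lt _ (by norm_num)) with ha | ⟨hb1, hb⟩
    · by_cases hjK : j ∈ K
      · exact hK j hjK
      · refine c3 j hj (fun i hi hij hbl => ?_)
        rcases Nat.eq_zero_or_pos i with h1 | h1
        · rw [h1]
          exact h0
        · by_cases hiK : i ∈ K
          · exact hK i hiK
          · exact absurd (ha i hi j hj (block_parity hi hj hbl) rfl hbl hiK hjK h1 hj0) hij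
    · have hlt : ∀ i, i < d → i % 2 = j % 2 → MvN (P.π i) (P'.π i) := by
        intro i hi hij
        refine exists_equiv_of_tr_eq hreg _ _ (P.π_self i) (P'.π_self i) (fun p hp => ?_)
        refine squeeze (fun j => tr p (P.π j)) (fun j => tr p (P'.π j)) d (j % 2)
          (Nat.mod_lt _ (by norm_num)) ?_ (fun j hj => tr_mono P' p hp hj) ?_ ?_ i hi hij
        · rcases Nat.mod_two_eq_zero_or_one j with h1 | h1
          · rw [h1]
            exact h0.tr_eq p
          · rw [h1]
            exact (hK 1 hb1).tr_eq p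
        · intro k hk1 hk2 hk3
          have h1 := tr_stable P p (j := k - 2) (by omega) (by
            rw [show k - 2 + 2 = k by omega]
            exact hb k hk1 hk2 hk3)
          rw [show k - 2 + 2 = k by omega] at h1
          exact h1
        · intro a
          have h1 := (c1 a).tr_eq p
          rw [P.tr_B, P'.tr_B] at h1
          exact h1
      rcases Nat.lt_or_ge j d with h1 | h1
      · exact hlt j h1 rfl
      · have h2 : j = d := le_antisymm hj h1
        refine c3 j hj (fun i hi hij hbl => hlt i (by omega) (block_parity hi hj hbl))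
  intro j hj
  rcases Nat.lt_or_ge d j with h1 | h1
  · have h2 := c2 (2 * d - j) (by omega) (key (2 * d - j) (by omega))
    rwa [show 2 * d - (2 * d - j) = j by omega] at h2
  · exact key j h1

end Pkg'

end Pool.Agent.Lib.OrlovChow
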