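import Pool.Agent.Lib.MP_5c0b30_ag.Mukai
import Pool.Agent.Lib.OrlovSig.Defs

/-!
# Chow motives with polarised cohomology

`C` is a `ℚ`-linear category with an action `X ↦ X⟦n⟧` of `ℤ` (the category of Chow motives with
rational coefficients over a subfield of `ℂ`, and the Tate twists), and `T` is a realization of `C`
in total cohomology.  For the motive `M` of a connected smooth projective variety `X` of dimension
`d` the cohomology `W M` carries a Hodge-Lefschetz datum of dimension `d`.
-/

set_option autoImplicit false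

open CategoryTheory
open scoped TensorProduct

namespace Pool.Agent.Lib.OrlovChow

open Pool.Agent.Lib.OrlovSig Pool.Agent.Lib.MP_5c0b30_ag

universe v u w

variable {C : Type u} [Category.{v} C] [Preadditive C] [HasShift C ℤ]
  {W : C → Type w} [∀ X, AddCommGroup (W X)] [∀ X, Module ℚ (W X)]

/-- Correspondences between `M` and `M'` act on the cohomology by maps which respect the Hodge
decompositions up to Tate twists, and have transposes for the Poincaré pairings. -/
structure Corr (T : TotalRealization C W) {d : ℕ} {M M' : C} (X : HodgeLefschetz d (W M))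
    (X' : HodgeLefschetz d (W M')) : Prop where
  hodge : ∀ (n : ℤ) (f : M ⟶ M'⟦n⟧) (c : ℤ) (x : ℂ ⊗[ℚ] W M),
    (T.act f).baseChange ℂ (X.col c x) = X'.col c ((T.act f).baseChange ℂ x)
  transpose : ∀ (n : ℤ) (f : M ⟶ M'⟦n⟧), ∃ g : M' ⟶ M⟦n⟧, ∀ (x : W M) (y : W M'),
    X'.pair (T.act f x) y = X.pair x (T.act g y)

/-- The Hodge-Lefschetz datum `X` on the cohomology of `M` is compatible with the realization: the
grading is the one of the realization, the operators `lef` and `can` (cup product with an ample class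
and with `c₁`) are given by morphisms `M ⟶ M⟦1⟧`, and the Lefschetz standard conjecture holds, i.e.
the inverse of `lef ^ (d - j) : H^j → H^(2d-j)` is given by a morphism `M ⟶ M⟦j - d⟧`. -/
structure Standard (T : TotalRealization C W) {d : ℕ} {M : C} (X : HodgeLefschetz d (W M)) :
    Prop where
  deg_pr : ∀ (j : ℕ) (x : W M), T.deg M (X.pr j x) = ((j : ℚ) / 2) • X.pr j x
  lef_alg : ∃ f : M ⟶ M⟦(1 : ℤ)⟧, T.act f = X.lef
  can_alg : ∃ f : M ⟶ M⟦(1 : ℤ)⟧, T.act f = X.can
  inverse : ∀ j ≤ d, ∃ f : M ⟶ M⟦(j : ℤ) - d⟧, ∀ x : W M,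
    T.act f ((X.lef ^ (d - j)) (X.pr j x)) = X.pr j x

/-- Morphisms `M ⟶ M'` and `M' ⟶ M` induce mutually inverse isomorphisms between `H^i` and
`H'^i`. -/
def AlgIso (T : TotalRealization C W) {d : ℕ} {M M' : C} (X : HodgeLefschetz d (W M))
    (X' : HodgeLefschetz d (W M')) (i : ℕ) : Prop :=
  ∃ (a : M ⟶ M') (b : M' ⟶ M),
    (∀ x : W M, T.act (ShiftedHom.mk₀ (0 : ℤ) rfl b) (T.act (ShiftedHom.mk₀ (0 : ℤ) rfl a)
      (X.pr i x)) = X.pr i x) ∧
    ∀ y : W M', T.act (ShiftedHom.mk₀ (0 : ℤ) rfl a) (T.act (ShiftedHom.mk₀ (0 : ℤ) rfl b)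
      (X'.pr i y)) = X'.pr i y

/-- There are no primitive classes of degree `j`. -/
def NoPrimitive {d : ℕ} {V : Type*} [AddCommGroup V] [Module ℚ V] (X : HodgeLefschetz d V)
    (j : ℕ) : Prop :=
  ∀ x : V, X.pr j x = x → (X.lef ^ (d - j + 1)) x = 0 → x = 0

end Pool.Agent.Lib.OrlovChow
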