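import Pool.Agent.Lib.OrlovChow.Abs
import Pool.Agent.Lib.OrlovSig.Apply

/-!
# Lefschetz packages in a smaller ring
-/

set_option autoImplicit false

namespace Pool.Agent.Lib.OrlovChow

open Pool.Agent.Lib.OrlovSig

section

variable {A W : Type*} [Ring A] [Algebra ℚ A] [AddCommGroup W] [Module A W]
  {q : W →+ W →+ ℝ} {d : ℕ} {S : Subalgebra ℚ A}

/-- A package in a subalgebra `S` whose operators lie in the subalgebra `T`. -/
def restrict (P : Pkg S W q d) (T : Subalgebra ℚ A) (hπ : ∀ j, (P.π j : A) ∈ T)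
    (hL : (P.L : A) ∈ T) (hθ : ∀ j, (P.θ j : A) ∈ T) : Pkg T W q d where
  π j := ⟨P.π j, hπ j⟩
  L := ⟨P.L, hL⟩
  θ j := ⟨P.θ j, hθ j⟩
  π_self i := Subtype.ext (congrArg (Subtype.val : S → A) (P.π_self i))
  π_ne i j h := Subtype.ext (congrArg (Subtype.val : S → A) (P.π_ne i j h))
  π_top j h := Subtype.ext (congrArg (Subtype.val : S → A) (P.π_top j h))
  L_π j := Subtype.ext (congrArg (Subtype.val : S → A) (P.L_π j))
  θ_L j h := Subtype.ext (congrArg (Subtype.val : S → A) (P.θ_L j h))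
  L_θ j h := Subtype.ext (congrArg (Subtype.val : S → A) (P.L_θ j h))
  π_θ j h := Subtype.ext (congrArg (Subtype.val : S → A) (P.π_θ j h))
  θ_π j h := Subtype.ext (congrArg (Subtype.val : S → A) (P.θ_π j h))
  q_π := P.q_π
  q_L := P.q_L
  HR := P.HR

variable (P : Pkg S W q d) (T : Subalgebra ℚ A) (hπ : ∀ j, (P.π j : A) ∈ T)
    (hL : (P.L : A) ∈ T) (hθ : ∀ j, (P.θ j : A) ∈ T)

theorem coe_restrict_ε : (((restrict P T hπ hL hθ).ε : T) : A) = (P.ε : A) := by
  unfold Pkg.ε
  rw [AddSubmonoidClass.coe_finsetSum, AddSubmonoidClass.coe_finsetSum]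
  rfl

theorem coe_restrict_E : (((restrict P T hπ hL hθ).E : T) : A) = (P.E : A) := by
  unfold Pkg.E
  rw [AddSubmonoidClass.coe_finsetSum, AddSubmonoidClass.coe_finsetSum]
  refine Finset.sum_congr rfl (fun i _ => ?_)
  split_ifs <;> rfl

theorem coe_restrict_DE : (((restrict P T hπ hL hθ).DE : T) : A) = (P.DE : A) := by
  rw [HodgeLefschetz.DE_eq_smul, HodgeLefschetz.DE_eq_smul, AddSubmonoidClass.coe_finsetSum,
    AddSubmonoidClass.coe_finsetSum]
  refine Finset.sum_congr rfl (fun i _ => ?_)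
  split_ifs <;> rfl

end

/-- The ring generated by two complementary packages is regular as soon as it has adjoints. -/
theorem regular_of {R W : Type*} [Ring R] [Algebra ℚ R] [AddCommGroup W] [Module R W]
    [Module.Finite ℚ R] [FaithfulSMul R W] {q : W →+ W →+ ℝ} {d : ℕ} (P P' : Pkg R W q d)
    (hsymm : ∀ x y, q x y = q y x) (hε : P.ε + P'.ε = 1) (hz : P.ε * P'.ε = 0)
    (hz' : P'.ε * P.ε = 0) (hadj : ∀ r : R, ∃ r' : R, ∀ x y, q (r • x) y = q x (r' • y)) (x : R) :
    ∃ z : R, x * z * x = x := by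
  obtain ⟨T, hTT, hTε, hεT, -, hTq, hpos, -⟩ := P.exists_polar hsymm
  obtain ⟨T', hTT', hTε', hεT', -, hTq', hpos', -⟩ := P'.exists_polar hsymm
  have hz1 : T * T' = 0 := by
    calc T * T' = T * (P.ε * P'.ε) * T' := by
          rw [← mul_assoc, hTε, mul_assoc, hεT']
      _ = 0 := by rw [hz, mul_zero, zero_mul]
  have hz2 : T' * T = 0 := by
    calc T' * T = T' * (P'.ε * P.ε) * T := by
          rw [← mul_assoc, hTε', mul_assoc, hεT]
      _ = 0 := by rw [hz', mul_zero, zero_mul]
  have hSS : (T + T') * (T + T') = 1 := by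
    rw [add_mul, mul_add, mul_add, hTT, hTT', hz1, hz2, add_zero, zero_add, hε]
  have hSq : ∀ x y, q ((T + T') • x) y = q x ((T + T') • y) := by
    intro x y
    rw [add_smul, add_smul, map_add, map_add, AddMonoidHom.add_apply, hTq, hTq']
  let Ψ : W →+ W →+ ℝ :=
    { toFun := fun x =>
        { toFun := fun y => q x ((T + T') • y)
          map_zero' := by simp
          map_add' := fun y z => by rw [smul_add, map_add] }
      map_zero' := by ext; simp
      map_add' := fun x y => by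
        refine AddMonoidHom.ext (fun z => ?_)
        simp only [map_add, AddMonoidHom.coe_mk, ZeroHom.coe_mk, AddMonoidHom.add_apply] }
  have hΨ : ∀ x y, Ψ x y = q x ((T + T') • y) := fun x y => rfl
  refine exists_regular Ψ ?_ ?_ ?_ x
  · intro x y
    rw [hΨ, hΨ, hsymm, hSq]
  · intro x hx
    rw [hΨ, add_smul, map_add]
    have h1 : q (P.ε • x) (T • (P.ε • x)) = q x (T • x) := by
      rw [← mul_smul, hTε, hsymm, hTq, ← mul_smul, hTε]
    have h2 : q (P'.ε • x) (T' • (P'.ε • x)) = q x (T' • x) := by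
      rw [← mul_smul, hTε', hsymm, hTq', ← mul_smul, hTε']
    rw [← h1, ← h2]
    have h3 : P.ε • x + P'.ε • x = x := by
      rw [← add_smul, hε, one_smul]
    have h4 : P.ε • (P.ε • x) = P.ε • x := by
      rw [← mul_smul, Pkg.ε_self]
    have h5 : P'.ε • (P'.ε • x) = P'.ε • x := by
      rw [← mul_smul, Pkg.ε_self]
    by_cases h6 : P.ε • x = 0
    · have h7 : P'.ε • x ≠ 0 := by
        intro h7
        rw [h6, h7, add_zero] at h3
        exact hx h3.symm
      rw [h6, smul_zero, map_zero, zero_add]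
      exact hpos' _ h5 h7
    · by_cases h7 : P'.ε • x = 0
      · rw [h7, smul_zero, map_zero, add_zero]
        exact hpos _ h4 h6
      · exact add_pos (hpos _ h4 h6) (hpos' _ h5 h7)
  · intro r
    obtain ⟨r', hr'⟩ := hadj r
    refine ⟨(T + T') * r' * (T + T'), fun x y => ?_⟩
    rw [hΨ, hΨ, hr', ← mul_smul, ← mul_smul]
    congr 2
    rw [← mul_assoc, ← mul_assoc, hSS, one_mul]

end Pool.Agent.Lib.OrlovChow
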