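import Pool.Agent.Lib.MP_5c0b30_ag.MukaiAlg
import Pool.Agent.Lib.OrlovChow.Defs
import Pool.Agent.Lib.OrlovChow.Restrict

/-!
# The ring of algebraic endomorphisms of `H^*(X) × H^*(X')`
-/

set_option autoImplicit false

open CategoryTheory
open scoped TensorProduct ComplexOrder

namespace Pool.Agent.Lib.OrlovChow

open Pool.Agent.Lib.OrlovSig Pool.Agent.Lib.MP_5c0b30_ag

universe v u w

variable {C : Type u} [Category.{v} C] [Preadditive C] [HasShift C ℤ]
  {W : C → Type w} [∀ X, AddCommGroup (W X)] [∀ X, Module ℚ (W X)]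
  {T : TotalRealization C W} {d : ℕ} {M M' : C} {X : HodgeLefschetz d (W M)}
  {X' : HodgeLefschetz d (W M')}

theorem Corr.isHodge (h : Corr T X X') {F : W M →ₗ[ℚ] W M'} (hF : F ∈ T.alg M M') :
    X.IsHodge X' F := by
  induction hF using Submodule.span_induction with
  | mem F hF =>
    obtain ⟨n, f, rfl⟩ := hF
    exact fun c x => h.hodge n f c x
  | zero => exact X.isHodge_zero X'
  | add F G _ _ h1 h2 => exact h1.add h2
  | smul c F _ h1 => exact h1.smul c

theorem Corr.exists_transpose (h : Corr T X X') {F : W M →ₗ[ℚ] W M'} (hF : F ∈ T.alg M M') :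
    ∃ G ∈ T.alg M' M, ∀ x y, X'.pair (F x) y = X.pair x (G y) := by
  induction hF using Submodule.span_induction with
  | mem F hF =>
    obtain ⟨n, f, rfl⟩ := hF
    obtain ⟨g, hg⟩ := h.transpose n f
    exact ⟨T.act g, T.act_mem g, hg⟩
  | zero => exact ⟨0, Submodule.zero_mem _, fun x y => by simp⟩
  | add F F' _ _ h1 h2 =>
    obtain ⟨G, hG, e⟩ := h1
    obtain ⟨G', hG', e'⟩ := h2
    exact ⟨G + G', Submodule.add_mem _ hG hG', fun x y => by
      rw [LinearMap.add_apply, LinearMap.add_apply, map_add, map_add, LinearMap.add_apply, e, e']⟩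
  | smul c F _ h1 =>
    obtain ⟨G, hG, e⟩ := h1
    exact ⟨c • G, Submodule.smul_mem _ _ hG, fun x y => by
      rw [LinearMap.smul_apply, LinearMap.smul_apply, map_smul, map_smul, LinearMap.smul_apply, e]⟩

theorem Corr.exists_adjoint (h : Corr T X X') (h' : Corr T X' X) {F : W M →ₗ[ℚ] W M'}
    (hF : F ∈ T.alg M M') : ∃ G ∈ T.alg M' M, ∀ x y, X'.qf (F x) y = X.qf x (G y) := by
  obtain ⟨g, hg, hadj⟩ := h.exists_transpose hF
  have hadjC : ∀ x y, X'.pair.baseChange ℂ (F.baseChange ℂ x) y =
      X.pair.baseChange ℂ x (g.baseChange ℂ y) := by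
    have key : ((X'.pair.baseChange ℂ).compl₁₂ (F.baseChange ℂ) LinearMap.id) =
        ((X.pair.baseChange ℂ).compl₁₂ LinearMap.id (g.baseChange ℂ)) := by
      apply bil_ext
      intro v w
      simp only [LinearMap.compl₁₂_apply, LinearMap.baseChange_tmul, LinearMap.id_apply,
        LinearMap.BilinForm.baseChange_tmul, hadj]
    intro x y
    have := LinearMap.congr_fun₂ key x y
    simpa only [LinearMap.compl₁₂_apply, LinearMap.id_apply] using this
  have hgH := h'.isHodge hg
  refine ⟨g, hg, fun x y => ?_⟩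
  rw [HodgeLefschetz.qf_apply, HodgeLefschetz.qf_apply]
  have e1 : (1 : ℂ) ⊗ₜ[ℚ] g y = g.baseChange ℂ (1 ⊗ₜ y) := rfl
  have e3 : (1 : ℂ) ⊗ₜ[ℚ] F x = F.baseChange ℂ (1 ⊗ₜ x) := rfl
  rw [e1, e3, hadjC, hgH.weil]

theorem lef_mem (h : Standard T X) : X.lef ∈ T.alg M M := by
  obtain ⟨f, hf⟩ := h.lef_alg
  rw [← hf]
  exact T.act_mem f

theorem can_mem (h : Standard T X) : X.can ∈ T.alg M M := by
  obtain ⟨f, hf⟩ := h.can_alg
  rw [← hf]
  exact T.act_mem f

section Fin

variable [FiniteDimensional ℚ (W M)]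

theorem pr_mem_aux (h : Standard T X) (hc : Corr T X X) (j : ℕ) (hj : j ≤ d) :
    X.pr j ∈ T.alg M M ∧ X.pr (2 * d - j) ∈ T.alg M M := by
  induction j using Nat.strong_induction_on with
  | _ j ih =>
    obtain ⟨f, hf⟩ := h.inverse j hj
    set E : W M →ₗ[ℚ] W M := LinearMap.id - ∑ i ∈ Finset.range j, X.pr i with hE
    set F : W M →ₗ[ℚ] W M := LinearMap.id - ∑ i ∈ Finset.range j, X.pr (2 * d - i) with hF
    have hEm : E ∈ T.alg M M := by
      refine Submodule.sub_mem _ (T.id_mem M) (Submodule.sum_mem _ (fun i hi => ?_))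
      rw [Finset.mem_range] at hi
      exact (ih i hi (by omega)).1
    have hFm : F ∈ T.alg M M := by
      refine Submodule.sub_mem _ (T.id_mem M) (Submodule.sum_mem _ (fun i hi => ?_))
      rw [Finset.mem_range] at hi
      exact (ih i hi (by omega)).2
    have hpp : ∀ (i k : ℕ) (x : W M), X.pr i (X.pr k x) = if i = k then X.pr k x else 0 := by
      intro i k x
      split_ifs with hik
      · rw [hik, ← Module.End.mul_apply, X.pr_self]
      · rw [← Module.End.mul_apply, X.pr_ne i k hik, LinearMap.zero_apply]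
    have hEpr : ∀ (i : ℕ) (x : W M), E (X.pr i x) = if i < j then 0 else X.pr i x := by
      intro i x
      rw [hE, LinearMap.sub_apply, LinearMap.id_apply, LinearMap.sum_apply]
      simp only [hpp]
      rw [Finset.sum_ite_eq']
      simp only [Finset.mem_range]
      split_ifs
      · rw [sub_self]
      · rw [sub_zero]
    have hFpr : ∀ (i : ℕ) (x : W M), F (X.pr i x) = if 2 * d - j < i then 0 else X.pr i x := by
      intro i x
      rcases Nat.lt_or_ge (2 * d) i with hi | hi
      · rw [X.pr_top i hi, LinearMap.zero_apply, map_zero]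
        split_ifs <;> rfl
      · rw [hF, LinearMap.sub_apply, LinearMap.id_apply, LinearMap.sum_apply]
        simp only [hpp]
        by_cases h1 : 2 * d - j < i
        · rw [if_pos h1, Finset.sum_eq_single (2 * d - i)]
          · rw [if_pos (by omega), sub_self]
          · intro k hk hk'
            rw [Finset.mem_range] at hk
            rw [if_neg (by omega)]
          · intro h2
            exact absurd (Finset.mem_range.2 (by omega)) h2
        · rw [if_neg h1, Finset.sum_eq_zero, sub_zero]
          intro k hk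
          rw [Finset.mem_range] at hk
          rw [if_neg (by omega)]
    have hL : ∀ (i : ℕ) (x : W M), (X.lef ^ (d - j)) (X.pr i x) =
        X.pr (i + 2 * (d - j)) ((X.lef ^ (d - j)) x) := by
      intro i x
      rw [← Module.End.mul_apply, X.lef_pow_pr, Module.End.mul_apply]
    have key : F ∘ₗ (X.lef ^ (d - j)) ∘ₗ E = (X.lef ^ (d - j)) ∘ₗ X.pr j := by
      apply X.ext_pr
      intro i x
      simp only [LinearMap.comp_apply]
      rw [hEpr, hpp]
      by_cases h1 : i < j
      · rw [if_pos h1, if_neg (by omega), map_zero, map_zero]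
      · rw [if_neg h1, hL, hFpr]
        by_cases h2 : j = i
        · rw [if_pos h2, if_neg (by omega), ← hL]
        · rw [if_neg h2, if_pos (by omega), map_zero]
    have h1 : X.pr j ∈ T.alg M M := by
      have h2 : X.pr j = T.act f ∘ₗ (F ∘ₗ (X.lef ^ (d - j)) ∘ₗ E) := by
        rw [key]
        ext x
        exact (hf x).symm
      rw [h2]
      exact T.comp_mem (T.comp_mem (T.comp_mem hEm (T.pow_mem (lef_mem h) _)) hFm) (T.act_mem f)
    refine ⟨h1, ?_⟩
    obtain ⟨G, hG, hGt⟩ := hc.exists_transpose h1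
    have h2 : G = X.pr (2 * d - j) := by
      ext y
      apply X.pair_flip_bijective.1
      ext x
      rw [LinearMap.flip_apply, LinearMap.flip_apply, ← hGt, X.pair_pr j (by omega)]
    rw [← h2]
    exact hG

theorem pr_mem (h : Standard T X) (hc : Corr T X X) (j : ℕ) : X.pr j ∈ T.alg M M := by
  rcases Nat.lt_or_ge (2 * d) j with h1 | h1
  · rw [X.pr_top j h1]
    exact Submodule.zero_mem _
  · rcases Nat.lt_or_ge d j with h2 | h2
    · have h3 := (pr_mem_aux h hc (2 * d - j) (by omega)).2
      rwa [show 2 * d - (2 * d - j) = j by omega] at h3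
    · exact (pr_mem_aux h hc j h2).1

theorem theta_mem (h : Standard T X) (hc : Corr T X X) (j : ℕ) : X.theta j ∈ T.alg M M := by
  by_cases hj : j ≤ d
  · obtain ⟨f, hf⟩ := h.inverse j hj
    obtain ⟨-, -, h2, h3, -⟩ := X.theta_spec j hj
    have h4 : X.theta j = T.act f ∘ₗ X.pr (2 * d - j) := by
      ext x
      rw [LinearMap.comp_apply, ← h2, Module.End.mul_apply]
      have h5 : X.pr j (X.theta j x) = X.theta j x := by
        rw [← Module.End.mul_apply, h3]
      rw [← h5, hf]
    rw [h4]
    exact T.comp_mem (pr_mem h hc _) (T.act_mem f)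
  · have h2 : X.theta j = 0 := by
      unfold HodgeLefschetz.theta
      rw [dif_neg hj]
    rw [h2]
    exact Submodule.zero_mem _

end Fin

/-- The algebraic endomorphisms of the cohomology, as a subalgebra. -/
def algSub (T : TotalRealization C W) (M : C) : Subalgebra ℚ (Module.End ℚ (W M)) where
  carrier := {f | f ∈ T.alg M M}
  mul_mem' := fun {f g} hf hg => by
    rw [Set.mem_ofPred_eq] at *
    exact T.comp_mem hg hf
  add_mem' := fun {f g} hf hg => by
    rw [Set.mem_ofPred_eq] at *
    exact Submodule.add_mem _ hf hg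
  algebraMap_mem' := fun r => by
    have h : algebraMap ℚ (Module.End ℚ (W M)) r = r • LinearMap.id := by
      ext x
      simp [Module.algebraMap_end_apply]
    rw [Set.mem_ofPred_eq, h]
    exact Submodule.smul_mem _ _ (T.id_mem M)

theorem mem_algSub {f : Module.End ℚ (W M)} : f ∈ algSub T M ↔ f ∈ T.alg M M := Iff.rfl

theorem adjoin_le (h : Standard T X) {f : Module.End ℚ (W M)}
    (hf : f ∈ Algebra.adjoin ℚ {X.can ^ 2}) : f ∈ T.alg M M := by
  have h1 : Algebra.adjoin ℚ {X.can ^ 2} ≤ algSub T M := by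
    refine Algebra.adjoin_le ?_
    intro g hg
    rw [Set.mem_singleton_iff] at hg
    rw [hg]
    exact mem_algSub.2 (T.pow_mem (can_mem h) 2)
  exact mem_algSub.1 (h1 hf)

end Pool.Agent.Lib.OrlovChow
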