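import Pool.Agent.Lib.OrlovChow.Iso

/-!
# Orlov's conjecture for Chow motives

`C` is a `ℚ`-linear category with an additive action `X ↦ X⟦n⟧` of `ℤ` (Chow motives with rational
coefficients over a subfield of `ℂ`, and the Tate twists), `T` is its realization in total
cohomology, `M`, `M'` are the motives of two connected smooth projective varieties of dimension `d`
and `X`, `X'` are the Hodge-Lefschetz data on their cohomology.  By Orlov, a derived equivalence
gives an isomorphism `e` between `M` and `M'` in the orbit category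
`Hom(X, Y) = ⨁ n : ℤ, Hom_C(X, Y⟦n⟧)`, which preserves the generalised Mukai pairings.
-/

set_option autoImplicit false

open CategoryTheory

namespace Pool.Agent.Lib.OrlovChow.ChowMotives

open Pool.Agent.Lib.OrlovSig Pool.Agent.Lib.MP_5c0b30_ag Pool.Agent.Lib.OrlovChow

universe v u w

/-- Let the Lefschetz standard conjecture hold for `M` and `M'`, let cohomologically trivial
endomorphisms of `M` and `M'` be radical, and let `K` be a set of degrees in which `H^i` and `H'^i`
are known to be isomorphic by morphisms between `M` and `M'`.  Assume that for each parity `e`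
either every block of degrees `≤ d` contains at most one degree of parity `e` outside `K`, or
`1 ∈ K` and `X` has no primitive cohomology of parity `e` in the degrees between `1` and `d`.  Then
an isomorphism between `M` and `M'` in the orbit category which is an isometry for the Mukai
pairings implies `M ≅ M'` in `C`; in particular it does if `d ≤ 4` and `1 ∈ K`. -/
theorem result {C : Type u} [Category.{v} C] [Preadditive C] [Linear ℚ C] [HasShift C ℤ]
    [∀ n : ℤ, (shiftFunctor C n).Additive] {W : C → Type w} [∀ X, AddCommGroup (W X)]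
    [∀ X, Module ℚ (W X)] (T : TotalRealization C W) {d : ℕ} {M M' : C}
    [FiniteDimensional ℚ (W M)] [FiniteDimensional ℚ (W M')] (X : HodgeLefschetz d (W M))
    (X' : HodgeLefschetz d (W M')) (hX : Standard T X) (hX' : Standard T X')
    (h₁₁ : Corr T X X) (h₁₂ : Corr T X X') (h₂₁ : Corr T X' X) (h₂₂ : Corr T X' X')
    (hM : T.TrivialRadical M) (hM' : T.TrivialRadical M') (e : OrbitEquiv M M')
    (he : ∀ x y : W M, X'.mukai (T.total e.hom x) (T.total e.hom y) = X.mukai x y)
    (K : Set ℕ) (h0 : 0 ∈ K) (hK : ∀ i ∈ K, AlgIso T X X' i) :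
    ((∀ e < 2, (∀ i ≤ d, ∀ j ≤ d, i % 2 = e → j % 2 = e → block d i = block d j →
        i ∉ K → j ∉ K → i = j) ∨
      (1 ∈ K ∧ ∀ j, 1 < j → j < d → j % 2 = e → NoPrimitive X j)) → Nonempty (M ≅ M')) ∧
    (d ≤ 4 → 1 ∈ K → Nonempty (M ≅ M')) := by
  have main : (∀ e < 2, (∀ i ≤ d, ∀ j ≤ d, i % 2 = e → j % 2 = e → block d i = block d j →
        i ∉ K → j ∉ K → i = j) ∨
      (1 ∈ K ∧ ∀ j, 1 < j → j < d → j % 2 = e → NoPrimitive X j)) → Nonempty (M ≅ M') := by
    intro h
    let u : W M ≃ₗ[ℚ] W M' := LinearEquiv.ofLinearMap (T.total e.hom) (T.total e.inv)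
      (T.total_inv_hom e) (T.total_hom_inv e)
    have hu : u.toLinearMap ∈ T.alg M M' := T.total_mem e.hom
    have hu' : u.symm.toLinearMap ∈ T.alg M' M := T.total_mem e.inv
    exact iso_of_mvn T hM hM' hX hX' h₁₁ h₂₂
      (mvn_all hX hX' h₁₁ h₁₂ h₂₁ h₂₂ u hu hu' he K h0 hK h)
  refine ⟨main, fun hd h1 => main (fun e _ => Or.inl (fun i hi j hj hie hje hb hiK hjK => ?_))⟩
  have hi0 : i ≠ 0 := fun h => hiK (h ▸ h0)
  have hj0 : j ≠ 0 := fun h => hjK (h ▸ h0)
  have hi1 : i ≠ 1 := fun h => hiK (h ▸ h1)
  have hj1 : j ≠ 1 := fun h => hjK (h ▸ h1)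
  unfold block at hb
  split_ifs at hb <;> omega

end Pool.Agent.Lib.OrlovChow.ChowMotives
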