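import Pool.Agent.Lib.OrlovChow.Main
import Pool.Agent.Lib.MP_5c0b30_ag.MukaiMain

/-!
# From algebraic isomorphisms of the cohomology to isomorphisms of motives
-/

set_option autoImplicit false

open CategoryTheory

namespace Pool.Agent.Lib.OrlovChow

open Pool.Agent.Lib.OrlovSig Pool.Agent.Lib.MP_5c0b30_ag HodgeLefschetz

universe v u w

variable {C : Type u} [Category.{v} C] [Preadditive C] [HasShift C ℤ]
  {W : C → Type w} [∀ X, AddCommGroup (W X)] [∀ X, Module ℚ (W X)]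

/-- Mutually inverse algebraic maps of degree `0` between the cohomologies of `M` and `M'` come from
an isomorphism as soon as cohomologically trivial endomorphisms are radical. -/
theorem iso_of_alg [Linear ℚ C] (T : TotalRealization C W) {M M' : C} (hM : T.TrivialRadical M)
    (hM' : T.TrivialRadical M') {F : W M →ₗ[ℚ] W M'} {F' : W M' →ₗ[ℚ] W M}
    (hF : F ∈ T.alg M M') (hF' : F' ∈ T.alg M' M) (hF'F : F' ∘ₗ F = LinearMap.id)
    (hFF' : F ∘ₗ F' = LinearMap.id) (hcomm : T.deg M' ∘ₗ F = F ∘ₗ T.deg M) :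
    Nonempty (M ≅ M') := by
  have hcomm' : T.deg M ∘ₗ F' = F' ∘ₗ T.deg M' := by
    calc T.deg M ∘ₗ F' = (F' ∘ₗ F) ∘ₗ (T.deg M ∘ₗ F') := by rw [hF'F, LinearMap.id_comp]
      _ = F' ∘ₗ ((F ∘ₗ T.deg M) ∘ₗ F') := rfl
      _ = F' ∘ₗ ((T.deg M' ∘ₗ F) ∘ₗ F') := by rw [hcomm]
      _ = (F' ∘ₗ T.deg M') ∘ₗ (F ∘ₗ F') := rfl
      _ = F' ∘ₗ T.deg M' := by rw [hFF', LinearMap.comp_id]
  have key : ∀ {X Y : C} {H : W X →ₗ[ℚ] W Y} (_ : H ∈ T.alg X Y)
      (_ : T.deg Y ∘ₗ H = H ∘ₗ T.deg X),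
      ∃ m : X ⟶ Y, H = T.act (ShiftedHom.mk₀ (0 : ℤ) rfl m) := by
    intro X Y H hH hH'
    obtain ⟨u, s, hs, rfl⟩ := T.exists_family hH
    refine ⟨(ShiftedHom.homEquiv (0 : ℤ) rfl).symm (u 0), ?_⟩
    have h6 : ShiftedHom.mk₀ (0 : ℤ) rfl ((ShiftedHom.homEquiv (0 : ℤ) rfl).symm (u 0)) = u 0 :=
      (ShiftedHom.homEquiv (0 : ℤ) rfl).apply_symm_apply (u 0)
    rw [h6]
    refine Finset.sum_eq_single 0 (fun n hn hn0 => ?_) (fun h0 => ?_)
    · exact T.act_eq_zero_of_commutes u s hH' n hn hn0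
    · rw [hs 0 h0, T.act_zero]
  obtain ⟨m, hm⟩ := key hF hcomm
  obtain ⟨m', hm'⟩ := key hF' hcomm'
  have unit : ∀ {X Y : C} (_ : T.TrivialRadical X) (p : X ⟶ Y) (q : Y ⟶ X)
      (_ : T.act (ShiftedHom.mk₀ (0 : ℤ) rfl q) ∘ₗ T.act (ShiftedHom.mk₀ (0 : ℤ) rfl p) =
        LinearMap.id), IsUnit (End.of (p ≫ q)) := by
    intro X Y hX p q h
    have h6 : End.of (𝟙 X - p ≫ q) ∈ Ring.jacobson (End X) := by
      refine hX _ ?_
      have h7 : ShiftedHom.mk₀ (0 : ℤ) rfl (𝟙 X - p ≫ q) =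
          ShiftedHom.mk₀ (0 : ℤ) rfl (𝟙 X) - ShiftedHom.mk₀ (0 : ℤ) rfl (p ≫ q) := by
        rw [eq_sub_iff_add_eq, ← ShiftedHom.mk₀_add, sub_add_cancel]
      have h8 : ShiftedHom.comp (ShiftedHom.mk₀ (0 : ℤ) rfl p) (ShiftedHom.mk₀ (0 : ℤ) rfl q)
          (by omega : (0 : ℤ) + 0 = 0) = ShiftedHom.mk₀ (0 : ℤ) rfl (p ≫ q) := by
        rw [ShiftedHom.mk₀_comp_mk₀]
      rw [h7, T.act_sub, T.act_id, ← h8, T.act_comp, h, sub_self]
    have h9 := isUnit_one_sub_of_mem_jacobson h6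
    have h10 : (1 : End X) - End.of (𝟙 X - p ≫ q) = End.of (p ≫ q) :=
      sub_sub_cancel (𝟙 X) (p ≫ q)
    rwa [h10] at h9
  have u1 := unit hM m m' (by rw [← hm, ← hm', hF'F])
  have u2 := unit hM' m' m (by rw [← hm, ← hm', hFF'])
  obtain ⟨⟨p, q, hpq, hqp⟩, hp⟩ := u1
  obtain ⟨⟨p', q', hpq', hqp'⟩, hp'⟩ := u2
  dsimp only at hp hp'
  subst hp hp'
  have k1 : (m ≫ m') ≫ q = 𝟙 M := hqp
  have k4 : q' ≫ (m' ≫ m) = 𝟙 M' := hpq'
  have k5 : m ≫ (m' ≫ q) = 𝟙 M := by simpa only [Category.assoc] using k1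
  have k6 : (q' ≫ m') ≫ m = 𝟙 M' := by simpa only [Category.assoc] using k4
  have k7 : q' ≫ m' = m' ≫ q := by
    calc q' ≫ m' = (q' ≫ m') ≫ (m ≫ (m' ≫ q)) := by rw [k5, Category.comp_id]
      _ = ((q' ≫ m') ≫ m) ≫ (m' ≫ q) := by simp only [Category.assoc]
      _ = m' ≫ q := by rw [k6, Category.id_comp]
  exact ⟨⟨m, m' ≫ q, k5, by rw [← k7, k6]⟩⟩

/-- The motives are isomorphic as soon as all the graded pieces are isomorphic by algebraic maps. -/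
theorem iso_of_mvn [Linear ℚ C] (T : TotalRealization C W) {d : ℕ} {M M' : C}
    [FiniteDimensional ℚ (W M)] [FiniteDimensional ℚ (W M')] {X : HodgeLefschetz d (W M)}
    {X' : HodgeLefschetz d (W M')} (hM : T.TrivialRadical M) (hM' : T.TrivialRadical M')
    (s : Standard T X) (s' : Standard T X') (h11 : Corr T X X) (h22 : Corr T X' X')
    (h : ∀ j ≤ 2 * d, MvN ((P₁ s h11 X').π j) ((P₂ X s' h22).π j)) : Nonempty (M ≅ M') := by
  have h1 : ∀ j : ℕ, ∃ (f : W M →ₗ[ℚ] W M') (g : W M' →ₗ[ℚ] W M), j ≤ 2 * d →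
      f ∈ T.alg M M' ∧ g ∈ T.alg M' M ∧ g ∘ₗ f = X.pr j ∧ f ∘ₗ g = X'.pr j ∧
      f ∘ₗ X.pr j = f ∧ X'.pr j ∘ₗ f = f ∧ g ∘ₗ X'.pr j = g ∧ X.pr j ∘ₗ g = g := by
    intro j
    by_cases hj : j ≤ 2 * d
    · obtain ⟨f, g, hfg⟩ := maps_of_mvn_alg s s' h11 h22 (h j hj)
      exact ⟨f, g, fun _ => hfg⟩
    · exact ⟨0, 0, fun h => absurd h hj⟩
  choose f g hfg using h1
  have hp : ∀ (i k : ℕ) (x : W M), X.pr i (X.pr k x) = if i = k then X.pr k x else 0 := by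
    intro i k x
    split_ifs with hik
    · rw [hik, ← Module.End.mul_apply, X.pr_self]
    · rw [← Module.End.mul_apply, X.pr_ne i k hik, LinearMap.zero_apply]
  have hp' : ∀ (i k : ℕ) (x : W M'), X'.pr i (X'.pr k x) = if i = k then X'.pr k x else 0 := by
    intro i k x
    split_ifs with hik
    · rw [hik, ← Module.End.mul_apply, X'.pr_self]
    · rw [← Module.End.mul_apply, X'.pr_ne i k hik, LinearMap.zero_apply]
  set F : W M →ₗ[ℚ] W M' := ∑ j ∈ Finset.range (2 * d + 1), f j with hF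
  set G : W M' →ₗ[ℚ] W M := ∑ j ∈ Finset.range (2 * d + 1), g j with hG
  have hmem : ∀ {j}, j ∈ Finset.range (2 * d + 1) → j ≤ 2 * d := by
    intro j hj
    rw [Finset.mem_range] at hj
    omega
  have hFm : F ∈ T.alg M M' := Submodule.sum_mem _ (fun j hj => (hfg j (hmem hj)).1)
  have hGm : G ∈ T.alg M' M := Submodule.sum_mem _ (fun j hj => (hfg j (hmem hj)).2.1)
  have hf1 : ∀ j ≤ 2 * d, ∀ x, f j (X.pr j x) = f j x := fun j hj x =>
    LinearMap.congr_fun (hfg j hj).2.2.2.2.1 x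
  have hf2 : ∀ j ≤ 2 * d, ∀ x, X'.pr j (f j x) = f j x := fun j hj x =>
    LinearMap.congr_fun (hfg j hj).2.2.2.2.2.1 x
  have hg1 : ∀ j ≤ 2 * d, ∀ x, g j (X'.pr j x) = g j x := fun j hj x =>
    LinearMap.congr_fun (hfg j hj).2.2.2.2.2.2.1 x
  have hg2 : ∀ j ≤ 2 * d, ∀ x, X.pr j (g j x) = g j x := fun j hj x =>
    LinearMap.congr_fun (hfg j hj).2.2.2.2.2.2.2 x
  have hfj : ∀ j ≤ 2 * d, ∀ i x, f j (X.pr i x) = if j = i then f i x else 0 := by
    intro j hj i x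
    rw [← hf1 j hj, hp]
    split_ifs with hji
    · rw [← hji, hf1 j hj]
    · rw [map_zero]
  have hgj : ∀ j ≤ 2 * d, ∀ i x, g j (X'.pr i x) = if j = i then g i x else 0 := by
    intro j hj i x
    rw [← hg1 j hj, hp']
    split_ifs with hji
    · rw [← hji, hg1 j hj]
    · rw [map_zero]
  have hFp : ∀ i ≤ 2 * d, ∀ x, F (X.pr i x) = f i x := by
    intro i hi x
    rw [hF, LinearMap.sum_apply, Finset.sum_eq_single_of_mem i (Finset.mem_range.2 (by omega))]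
    · rw [hf1 i hi]
    · intro j hj hji
      rw [hfj j (hmem hj), if_neg hji]
  have hGp : ∀ i ≤ 2 * d, ∀ x, G (X'.pr i x) = g i x := by
    intro i hi x
    rw [hG, LinearMap.sum_apply, Finset.sum_eq_single_of_mem i (Finset.mem_range.2 (by omega))]
    · rw [hg1 i hi]
    · intro j hj hji
      rw [hgj j (hmem hj), if_neg hji]
  refine iso_of_alg T hM hM' hFm hGm ?_ ?_ ?_
  · apply X.ext_pr
    intro i x
    rcases Nat.lt_or_ge (2 * d) i with hi | hi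
    · rw [X.pr_top i hi, LinearMap.zero_apply, map_zero, map_zero]
    · rw [LinearMap.comp_apply, hFp i hi, ← hf2 i hi, hGp i hi, LinearMap.id_apply]
      exact LinearMap.congr_fun (hfg i hi).2.2.1 x
  · apply X'.ext_pr
    intro i x
    rcases Nat.lt_or_ge (2 * d) i with hi | hi
    · rw [X'.pr_top i hi, LinearMap.zero_apply, map_zero, map_zero]
    · rw [LinearMap.comp_apply, hGp i hi, ← hg2 i hi, hFp i hi, LinearMap.id_apply]
      exact LinearMap.congr_fun (hfg i hi).2.2.2.1 x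
  · apply X.ext_pr
    intro i x
    rcases Nat.lt_or_ge (2 * d) i with hi | hi
    · rw [X.pr_top i hi, LinearMap.zero_apply, map_zero, map_zero]
    · rw [LinearMap.comp_apply, LinearMap.comp_apply, s.deg_pr, map_smul, hFp i hi,
        ← hf2 i hi, s'.deg_pr]

end Pool.Agent.Lib.OrlovChow
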