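import Pool.Agent.Lib.OrlovChow.Ring

/-!
# Algebraic isomorphisms between the graded pieces
-/

set_option autoImplicit false

open CategoryTheory
open scoped TensorProduct ComplexOrder

namespace Pool.Agent.Lib.OrlovChow

open Pool.Agent.Lib.OrlovSig Pool.Agent.Lib.MP_5c0b30_ag HodgeLefschetz

universe v u w

variable {C : Type u} [Category.{v} C] [Preadditive C] [HasShift C ℤ]
  {W : C → Type w} [∀ X, AddCommGroup (W X)] [∀ X, Module ℚ (W X)]
  {T : TotalRealization C W} {d : ℕ} {M M' : C} {X : HodgeLefschetz d (W M)}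
  {X' : HodgeLefschetz d (W M')}

/-- An algebraic Mukai isometry can be modified to an algebraic isometry for the pairing without
`c₁`, on the part of degree congruent to `d` modulo `2`. -/
theorem exists_isometry_alg (s : Standard T X) (s' : Standard T X') (u : W M ≃ₗ[ℚ] W M')
    (hu : u.toLinearMap ∈ T.alg M M') (hu' : u.symm.toLinearMap ∈ T.alg M' M)
    (hH : X.IsHodge X' u.toLinearMap)
    (hm : ∀ x y, X'.mukai (u x) (u y) = X.mukai x y) :
    ∃ u' : W M ≃ₗ[ℚ] W M', X.IsHodge X' u'.toLinearMap ∧ u'.toLinearMap ∈ T.alg M M' ∧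
      u'.symm.toLinearMap ∈ T.alg M' M ∧
      ∀ x, X.parE x = x → X'.qf (X'.dual (u' x)) (u' x) = X.qf (X.dual x) x := by
  have hb : ∀ x, X'.qf (X'.dual (u x)) (X'.expHalf (u x)) = X.qf (X.dual x) (X.expHalf x) := by
    intro x
    exact X.qf_of_pair X' (X'.dual ∘ₗ u.toLinearMap) (X'.expHalf ∘ₗ u.toLinearMap)
      (X'.isHodge_expHalf.comp hH) X.dual X.expHalf X.isHodge_expHalf (fun x y => hm x y) x x
  obtain ⟨r, t, hr, ht, hrr, hrt, htr⟩ := X.exists_sqrt_cosh
  obtain ⟨r', t', hr', ht', hrr', hrt', htr'⟩ := X'.exists_sqrt_cosh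
  obtain ⟨r1, r2, r3⟩ := X.good_adjoin hr
  obtain ⟨t1, t2, t3⟩ := X.good_adjoin ht
  obtain ⟨r1', r2', r3'⟩ := X'.good_adjoin hr'
  let e : W M ≃ₗ[ℚ] W M := LinearEquiv.ofLinearMap t r htr hrt
  let e' : W M' ≃ₗ[ℚ] W M' := LinearEquiv.ofLinearMap r' t' hrt' htr'
  refine ⟨(e.trans u).trans e', ?_, ?_, ?_, ?_⟩
  · have h : ((e.trans u).trans e').toLinearMap = r' ∘ₗ (u.toLinearMap ∘ₗ t) := rfl
    rw [h]
    exact r1'.comp (hH.comp t1)
  · have h : ((e.trans u).trans e').toLinearMap = r' ∘ₗ (u.toLinearMap ∘ₗ t) := rfl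
    rw [h]
    exact T.comp_mem (T.comp_mem (adjoin_le s ht) hu) (adjoin_le s' hr')
  · have h : ((e.trans u).trans e').symm.toLinearMap = r ∘ₗ (u.symm.toLinearMap ∘ₗ t') := rfl
    rw [h]
    exact T.comp_mem (T.comp_mem (adjoin_le s' ht') hu') (adjoin_le s hr)
  · intro x hx
    have h : ((e.trans u).trans e') x = r' (u (t x)) := rfl
    rw [h]
    have htx : X.parE (t x) = t x := by
      have h1 := LinearMap.congr_fun (parE_comm t1) x
      rw [LinearMap.comp_apply, LinearMap.comp_apply, hx] at h1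
      exact h1
    have hutx : X'.parE (u (t x)) = u (t x) := by
      have h1 := LinearMap.congr_fun (parE_comm hH) (t x)
      rw [LinearMap.comp_apply, LinearMap.comp_apply, htx] at h1
      exact h1
    have hrtx : r (t x) = x := LinearMap.congr_fun hrt x
    rw [r3', r2', ← Module.End.mul_apply, hrr', X'.qf_dual_cosh _ hutx, hb,
      ← X.qf_dual_cosh _ htx, ← hrr, Module.End.mul_apply, ← r2, ← r3, hrtx]

section Deg

/-- The grading is determined by the degree operator. -/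
theorem pr_of_deg (s : Standard T X) {i : ℕ} {x : W M}
    (hx : T.deg M x = ((i : ℚ) / 2) • x) : X.pr i x = x := by
  have hpp : ∀ (i k : ℕ) (x : W M), X.pr i (X.pr k x) = if i = k then X.pr k x else 0 := by
    intro i k x
    split_ifs with hik
    · rw [hik, ← Module.End.mul_apply, X.pr_self]
    · rw [← Module.End.mul_apply, X.pr_ne i k hik, LinearMap.zero_apply]
  have hsum : ∀ x, x = ∑ j ∈ Finset.range (2 * d + 1), X.pr j x := by
    intro x
    rw [← LinearMap.sum_apply, X.pr_sum, LinearMap.id_apply]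
  have h1 : ∀ j, j ≠ i → X.pr j x = 0 := by
    intro j hj
    rcases Nat.lt_or_ge (2 * d) j with h | h
    · rw [X.pr_top j h, LinearMap.zero_apply]
    · have h2 : X.pr j (T.deg M x) = ((j : ℚ) / 2) • X.pr j x := by
        conv_lhs => rw [hsum x]
        rw [map_sum, map_sum, Finset.sum_eq_single j]
        · rw [s.deg_pr, map_smul, hpp, if_pos rfl]
        · intro k _ hk
          rw [s.deg_pr, map_smul, hpp, if_neg (Ne.symm hk), smul_zero]
        · intro h3
          exact absurd (Finset.mem_range.2 (by omega)) h3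
      rw [hx, map_smul] at h2
      have h3 : (((i : ℚ) / 2) - ((j : ℚ) / 2)) • X.pr j x = 0 := by
        rw [sub_smul, h2, sub_self]
      rcases smul_eq_zero.1 h3 with h4 | h4
      · exfalso
        apply hj
        have h5 : (j : ℚ) = i := by linarith
        exact_mod_cast h5
      · exact h4
  conv_rhs => rw [hsum x]
  rcases Nat.lt_or_ge (2 * d) i with h | h
  · rw [X.pr_top i h, LinearMap.zero_apply, Finset.sum_eq_zero]
    intro j hj
    rw [Finset.mem_range] at hj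
    exact h1 j (by omega)
  · rw [Finset.sum_eq_single_of_mem i (Finset.mem_range.2 (by omega)) (fun j _ hj => h1 j hj)]

/-- Morphisms of degree `0` respect the degrees. -/
theorem act_zero_pr (s : Standard T X) (s' : Standard T X') (a : M ⟶ M') (i : ℕ) (x : W M) :
    X'.pr i (T.act (ShiftedHom.mk₀ (0 : ℤ) rfl a) (X.pr i x)) =
      T.act (ShiftedHom.mk₀ (0 : ℤ) rfl a) (X.pr i x) := by
  apply pr_of_deg s'
  have h := LinearMap.congr_fun (T.deg_act (ShiftedHom.mk₀ (0 : ℤ) rfl a)) (X.pr i x)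
  rw [LinearMap.sub_apply, LinearMap.comp_apply, LinearMap.comp_apply, LinearMap.smul_apply,
    Int.cast_zero, zero_smul, sub_eq_zero, s.deg_pr, map_smul] at h
  exact h

end Deg

section Fin

variable [FiniteDimensional ℚ (W M)] [FiniteDimensional ℚ (W M')]

theorem mvn_of_algIso (s : Standard T X) (s' : Standard T X') (h11 : Corr T X X)
    (h22 : Corr T X' X') {i : ℕ} (h : AlgIso T X X' i) :
    MvN ((P₁ s h11 X').π i) ((P₂ X s' h22).π i) := by
  obtain ⟨a, b, hab, hba⟩ := h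
  set α : W M →ₗ[ℚ] W M' := T.act (ShiftedHom.mk₀ (0 : ℤ) rfl a) with hα
  set β : W M' →ₗ[ℚ] W M := T.act (ShiftedHom.mk₀ (0 : ℤ) rfl b) with hβ
  set F : W M →ₗ[ℚ] W M' := α ∘ₗ X.pr i with hF
  set G : W M' →ₗ[ℚ] W M := β ∘ₗ X'.pr i with hG
  have hFm : F ∈ T.alg M M' := T.comp_mem (pr_mem s h11 i) (T.act_mem _)
  have hGm : G ∈ T.alg M' M := T.comp_mem (pr_mem s' h22 i) (T.act_mem _)
  have p1 : ∀ x, X.pr i (X.pr i x) = X.pr i x := fun x => LinearMap.congr_fun (X.pr_self i) x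
  have p2 : ∀ x, X'.pr i (X'.pr i x) = X'.pr i x := fun x => LinearMap.congr_fun (X'.pr_self i) x
  have hF1 : ∀ x, X'.pr i (F x) = F x := fun x => act_zero_pr s s' a i x
  have hG1 : ∀ y, X.pr i (G y) = G y := fun y => act_zero_pr s' s b i y
  have hFG : ∀ y, F (G y) = X'.pr i y := by
    intro y
    rw [hF, LinearMap.comp_apply, hG1, hG, LinearMap.comp_apply, hba]
  have hGF : ∀ x, G (F x) = X.pr i x := by
    intro x
    rw [hG, LinearMap.comp_apply, hF1, hF, LinearMap.comp_apply, hab]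
  have hF2 : ∀ x, F (X.pr i x) = F x := by
    intro x
    rw [hF, LinearMap.comp_apply, p1, LinearMap.comp_apply]
  have hG2 : ∀ y, G (X'.pr i y) = G y := by
    intro y
    rw [hG, LinearMap.comp_apply, p2, LinearMap.comp_apply]
  refine ⟨⟨_, mem_algRing.2 (blk12 hGm)⟩, ⟨_, mem_algRing.2 (blk21 hFm)⟩, ?_, ?_, ?_, ?_, ?_, ?_⟩
  · refine Subtype.ext (LinearMap.ext (fun w => ?_))
    change (LinearMap.inl ℚ (W M) (W M')) (G ((LinearMap.inr ℚ (W M) (W M') (F w.1)).2)) =
      LinearMap.inl ℚ (W M) (W M') (X.pr i w.1)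
    simp [hGF]
  · refine Subtype.ext (LinearMap.ext (fun w => ?_))
    change (LinearMap.inr ℚ (W M) (W M')) (F ((LinearMap.inl ℚ (W M) (W M') (G w.2)).1)) =
      LinearMap.inr ℚ (W M) (W M') (X'.pr i w.2)
    simp [hFG]
  · refine Subtype.ext (LinearMap.ext (fun w => ?_))
    change (LinearMap.inl ℚ (W M) (W M')) (X.pr i ((LinearMap.inl ℚ (W M) (W M') (G w.2)).1)) =
      LinearMap.inl ℚ (W M) (W M') (G w.2)
    simp [hG1]
  · refine Subtype.ext (LinearMap.ext (fun w => ?_))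
    change (LinearMap.inl ℚ (W M) (W M')) (G ((LinearMap.inr ℚ (W M) (W M') (X'.pr i w.2)).2)) =
      LinearMap.inl ℚ (W M) (W M') (G w.2)
    simp [hG2]
  · refine Subtype.ext (LinearMap.ext (fun w => ?_))
    change (LinearMap.inr ℚ (W M) (W M')) (X'.pr i ((LinearMap.inr ℚ (W M) (W M') (F w.1)).2)) =
      LinearMap.inr ℚ (W M) (W M') (F w.1)
    simp [hF1]
  · refine Subtype.ext (LinearMap.ext (fun w => ?_))
    change (LinearMap.inr ℚ (W M) (W M')) (F ((LinearMap.inl ℚ (W M) (W M') (X.pr i w.1)).1)) =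
      LinearMap.inr ℚ (W M) (W M') (F w.1)
    simp [hF2]

/-- The algebraic maps given by an equivalence of the projectors of degree `i`. -/
theorem maps_of_mvn_alg (s : Standard T X) (s' : Standard T X') (h11 : Corr T X X)
    (h22 : Corr T X' X') {i : ℕ} (h : MvN ((P₁ s h11 X').π i) ((P₂ X s' h22).π i)) :
    ∃ (f : W M →ₗ[ℚ] W M') (g : W M' →ₗ[ℚ] W M), f ∈ T.alg M M' ∧ g ∈ T.alg M' M ∧
      g ∘ₗ f = X.pr i ∧ f ∘ₗ g = X'.pr i ∧ f ∘ₗ X.pr i = f ∧ X'.pr i ∘ₗ f = f ∧
      g ∘ₗ X'.pr i = g ∧ X.pr i ∘ₗ g = g := by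
  obtain ⟨x, y, hxy, hyx, h1, h2, h3, h4⟩ := h
  set ξ : Module.End ℚ (W M × W M') := x.1 with hξ
  set η : Module.End ℚ (W M × W M') := y.1 with hη
  have aE : ∀ w, (((P₁ s h11 X').π i : algRing T M M') : Module.End ℚ (W M × W M')) w =
      (X.pr i w.1, 0) := by
    intro w
    change (LinearMap.inl ℚ (W M) (W M')) (X.pr i w.1) = _
    simp
  have aE' : ∀ w, (((P₂ X s' h22).π i : algRing T M M') : Module.End ℚ (W M × W M')) w =
      (0, X'.pr i w.2) := by
    intro w
    change (LinearMap.inr ℚ (W M) (W M')) (X'.pr i w.2) = _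
    simp
  have mulap : ∀ {a b c : algRing T M M'} (_ : a * b = c) (w : W M × W M'),
      (a : Module.End ℚ (W M × W M')) ((b : Module.End ℚ (W M × W M')) w) =
        (c : Module.End ℚ (W M × W M')) w := by
    intro a b c h w
    rw [← h]
    rfl
  have bxy := mulap hxy
  have byx := mulap hyx
  have b1 := mulap h1
  have b2 := mulap h2
  have b3 := mulap h3
  have b4 := mulap h4
  simp only [aE, aE'] at bxy byx b1 b2 b3 b4
  have hy1 : ∀ w, (η w).1 = 0 := fun w => (congrArg Prod.fst (b3 w)).symm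
  have hx2 : ∀ w, (ξ w).2 = 0 := fun w => (congrArg Prod.snd (b1 w)).symm
  refine ⟨LinearMap.snd ℚ (W M) (W M') ∘ₗ η ∘ₗ LinearMap.inl ℚ (W M) (W M'),
    LinearMap.fst ℚ (W M) (W M') ∘ₗ ξ ∘ₗ LinearMap.inr ℚ (W M) (W M'),
    (mem_algRing.1 y.2).2.1, (mem_algRing.1 x.2).2.2.1, ?_, ?_, ?_, ?_, ?_, ?_⟩
  · ext v
    simp only [LinearMap.comp_apply, LinearMap.inl_apply, LinearMap.inr_apply,
      LinearMap.fst_apply, LinearMap.snd_apply]
    have h5 : ((0, (η (v, 0)).2) : W M × W M') = η (v, 0) := by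
      ext
      · exact (hy1 _).symm
      · rfl
    rw [h5, bxy]
  · ext v
    simp only [LinearMap.comp_apply, LinearMap.inl_apply, LinearMap.inr_apply,
      LinearMap.fst_apply, LinearMap.snd_apply]
    have h5 : (((ξ (0, v)).1, 0) : W M × W M') = ξ (0, v) := by
      ext
      · rfl
      · exact (hx2 _).symm
    rw [h5, byx]
  · ext v
    simp only [LinearMap.comp_apply, LinearMap.inl_apply, LinearMap.snd_apply]
    exact congrArg Prod.snd (b4 (v, 0))
  · ext v
    simp only [LinearMap.comp_apply, LinearMap.inl_apply, LinearMap.snd_apply]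
    exact congrArg Prod.snd (b3 (v, 0))
  · ext v
    simp only [LinearMap.comp_apply, LinearMap.inr_apply, LinearMap.fst_apply]
    exact congrArg Prod.fst (b2 (0, v))
  · ext v
    simp only [LinearMap.comp_apply, LinearMap.inr_apply, LinearMap.fst_apply]
    exact congrArg Prod.fst (b1 (0, v))

/-- All the graded pieces are isomorphic by algebraic maps. -/
theorem mvn_all (s : Standard T X) (s' : Standard T X') (h11 : Corr T X X)
    (h12 : Corr T X X') (h21 : Corr T X' X) (h22 : Corr T X' X') (u : W M ≃ₗ[ℚ] W M')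
    (hu : u.toLinearMap ∈ T.alg M M') (hu' : u.symm.toLinearMap ∈ T.alg M' M)
    (hm : ∀ x y, X'.mukai (u x) (u y) = X.mukai x y) (K : Set ℕ) (hK0 : 0 ∈ K)
    (hK : ∀ i ∈ K, AlgIso T X X' i)
    (h : ∀ e < 2, (∀ i ≤ d, ∀ j ≤ d, i % 2 = e → j % 2 = e → block d i = block d j →
        i ∉ K → j ∉ K → i = j) ∨
      (1 ∈ K ∧ ∀ j, 1 < j → j < d → j % 2 = e → NoPrimitive X j)) :
    ∀ j ≤ 2 * d, MvN ((P₁ s h11 X').π j) ((P₂ X s' h22).π j) := by
  obtain ⟨w, hw, hwm, hwm', hiso⟩ := exists_isometry_alg s s' u hu hu' (h12.isHodge hu) hm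
  refine Pkg'.core2 (P₁ s h11 X') (P₂ X s' h22) (X.qq_symm X')
    (regular_alg s s' h11 h12 h21 h22)
    ⟨_, mem_algRing.2 (blk21 hwm)⟩ ⟨_, mem_algRing.2 (blk12 hwm')⟩
    ?_ ?_ ?_ ?_ ?_ (mvn_of_algIso s s' h11 h22 (hK 0 hK0)) K
    (fun i hi => mvn_of_algIso s s' h11 h22 (hK i hi)) ?_
  · refine Subtype.ext ?_
    change (LinearMap.inl ℚ (W M) (W M') ∘ₗ w.symm.toLinearMap ∘ₗ
      LinearMap.snd ℚ (W M) (W M')) ∘ₗ
      (LinearMap.inr ℚ (W M) (W M') ∘ₗ w.toLinearMap ∘ₗ LinearMap.fst ℚ (W M) (W M')) = _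
    rw [coe_P₁_ε]
    ext x <;> simp
  · refine Subtype.ext ?_
    change (LinearMap.inr ℚ (W M) (W M') ∘ₗ w.toLinearMap ∘ₗ LinearMap.fst ℚ (W M) (W M')) ∘ₗ
      (LinearMap.inl ℚ (W M) (W M') ∘ₗ w.symm.toLinearMap ∘ₗ LinearMap.snd ℚ (W M) (W M')) = _
    rw [coe_P₂_ε]
    ext x <;> simp
  · refine Subtype.ext ?_
    change (LinearMap.inr ℚ (W M) (W M') ∘ₗ w.toLinearMap ∘ₗ LinearMap.fst ℚ (W M) (W M')) ∘ₗ
      ((P₁ s h11 X').E : Module.End ℚ (W M × W M')) =
      ((P₂ X s' h22).E : Module.End ℚ (W M × W M')) ∘ₗ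
      (LinearMap.inr ℚ (W M) (W M') ∘ₗ w.toLinearMap ∘ₗ LinearMap.fst ℚ (W M) (W M'))
    rw [coe_P₁_E, coe_P₂_E]
    have h := parE_comm hw
    have h' := LinearMap.congr_fun h
    simp only [LinearMap.comp_apply, LinearEquiv.coe_coe] at h'
    ext x <;> simp [h']
  · refine Subtype.ext ?_
    change (LinearMap.inl ℚ (W M) (W M') ∘ₗ w.symm.toLinearMap ∘ₗ
      LinearMap.snd ℚ (W M) (W M')) ∘ₗ
      ((P₂ X s' h22).E : Module.End ℚ (W M × W M')) =
      ((P₁ s h11 X').E : Module.End ℚ (W M × W M')) ∘ₗ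
      (LinearMap.inl ℚ (W M) (W M') ∘ₗ w.symm.toLinearMap ∘ₗ LinearMap.snd ℚ (W M) (W M'))
    rw [coe_P₁_E, coe_P₂_E]
    have h := parE_comm (hw.symm w)
    have h' := LinearMap.congr_fun h
    simp only [LinearMap.comp_apply, LinearEquiv.coe_coe] at h'
    ext x <;> simp [h']
  · intro x hx
    have hE : ((P₁ s h11 X').E • x) = (X.parE x.1, 0) := by
      change ((P₁ s h11 X').E : Module.End ℚ (W M × W M')) x = _
      rw [coe_P₁_E]
      ext <;> simp
    have hx1 : X.parE x.1 = x.1 := by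
      have := congrArg Prod.fst (hE.symm.trans hx)
      exact this
    have hwx : X'.parE (w x.1) = w x.1 := by
      have h1 := LinearMap.congr_fun (parE_comm hw) x.1
      rw [LinearMap.comp_apply, LinearMap.comp_apply, hx1] at h1
      exact h1
    have e1 : ((⟨_, mem_algRing.2 (blk21 hwm)⟩ : algRing T M M') • x) = (0, w x.1) := by
      change (LinearMap.inr ℚ (W M) (W M') ∘ₗ w.toLinearMap ∘ₗ
        LinearMap.fst ℚ (W M) (W M')) x = _
      ext <;> simp
    have e2 : ((P₂ X s' h22).DE • ((0, w x.1) : W M × W M')) = (0, X'.dual (w x.1)) := by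
      change ((P₂ X s' h22).DE : Module.End ℚ (W M × W M')) (0, w x.1) = _
      rw [coe_P₂_DE]
      ext
      · simp
      · simp [X'.parD_eq _ hwx]
    have e3 : ((P₁ s h11 X').DE • x) = (X.dual x.1, 0) := by
      change ((P₁ s h11 X').DE : Module.End ℚ (W M × W M')) x = _
      rw [coe_P₁_DE]
      ext
      · simp [X.parD_eq _ hx1]
      · simp
    rw [e1, e2, e3, qq_apply, qq_apply]
    simp [hiso _ hx1]
  · intro e he
    rcases h e he with h1 | ⟨h1, h2⟩
    · left
      intro i hi j hj hie hje hb hiK hjK _ _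
      exact h1 i hi j hj hie hje hb hiK hjK
    · right
      refine ⟨h1, fun j hj1 hj2 hje x hx hx0 => ?_⟩
      have hx' : LinearMap.inl ℚ (W M) (W M') (X.pr j x.1) = x := hx
      have h3 : X.pr j x.1 = x.1 := congrArg Prod.fst hx'
      have h4 : x.2 = 0 := (congrArg Prod.snd hx').symm
      have h5 : ((show Module.End ℚ (W M × W M') from LinearMap.inl ℚ (W M) (W M') ∘ₗ X.lef ∘ₗ
          LinearMap.fst ℚ (W M) (W M')) ^ (d - j + 1)) x = 0 := by
        have h6 : ((((P₁ s h11 X').L : algRing T M M') ^ (d - j + 1) : algRing T M M') :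
          Module.End ℚ (W M × W M')) = (show Module.End ℚ (W M × W M') from
            LinearMap.inl ℚ (W M) (W M') ∘ₗ X.lef ∘ₗ
            LinearMap.fst ℚ (W M) (W M')) ^ (d - j + 1) :=
          SubmonoidClass.coe_pow (P₁ s h11 X').L (d - j + 1)
        rw [← h6]
        exact hx0
      have hx1 : x = LinearMap.inl ℚ (W M) (W M') x.1 := by
        ext
        · rfl
        · exact h4
      rw [hx1, emb_pow_apply (by ext; simp)] at h5
      have h6 : (X.lef ^ (d - j + 1)) x.1 = 0 := congrArg Prod.fst h5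
      have h7 := h2 j hj1 hj2 hje x.1 h3 h6
      rw [hx1, h7, map_zero]

end Fin

end Pool.Agent.Lib.OrlovChow
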