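import Pool.Agent.Lib.OrlovChow.Alg

/-!
# The ring of algebraic endomorphisms of `H^*(X) × H^*(X')` and the two packages
-/

set_option autoImplicit false

open CategoryTheory
open scoped TensorProduct ComplexOrder

namespace Pool.Agent.Lib.OrlovChow

open Pool.Agent.Lib.OrlovSig Pool.Agent.Lib.MP_5c0b30_ag HodgeLefschetz

universe v u w

variable {C : Type u} [Category.{v} C] [Preadditive C] [HasShift C ℤ]
  {W : C → Type w} [∀ X, AddCommGroup (W X)] [∀ X, Module ℚ (W X)]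
  {d : ℕ} {M M' : C}

/-- The blocks are algebraic maps. -/
def Blk (T : TotalRealization C W) (M M' : C) (f : Module.End ℚ (W M × W M')) : Prop :=
  LinearMap.fst ℚ (W M) (W M') ∘ₗ f ∘ₗ LinearMap.inl ℚ (W M) (W M') ∈ T.alg M M ∧
  LinearMap.snd ℚ (W M) (W M') ∘ₗ f ∘ₗ LinearMap.inl ℚ (W M) (W M') ∈ T.alg M M' ∧
  LinearMap.fst ℚ (W M) (W M') ∘ₗ f ∘ₗ LinearMap.inr ℚ (W M) (W M') ∈ T.alg M' M ∧
  LinearMap.snd ℚ (W M) (W M') ∘ₗ f ∘ₗ LinearMap.inr ℚ (W M) (W M') ∈ T.alg M' M'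

/-- The ring of algebraic endomorphisms. -/
def algRing (T : TotalRealization C W) (M M' : C) :
    Subalgebra ℚ (Module.End ℚ (W M × W M')) where
  carrier := {f | Blk T M M' f}
  mul_mem' := by
    rintro f g ⟨f1, f2, f3, f4⟩ ⟨g1, g2, g3, g4⟩
    refine ⟨?_, ?_, ?_, ?_⟩
    · rw [block_mul]; exact Submodule.add_mem _ (T.comp_mem g1 f1) (T.comp_mem g2 f3)
    · rw [block_mul]; exact Submodule.add_mem _ (T.comp_mem g1 f2) (T.comp_mem g2 f4)
    · rw [block_mul]; exact Submodule.add_mem _ (T.comp_mem g3 f1) (T.comp_mem g4 f3)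
    · rw [block_mul]; exact Submodule.add_mem _ (T.comp_mem g3 f2) (T.comp_mem g4 f4)
  add_mem' := by
    rintro f g ⟨f1, f2, f3, f4⟩ ⟨g1, g2, g3, g4⟩
    rw [Set.mem_ofPred_eq]
    unfold Blk
    simp only [LinearMap.add_comp, LinearMap.comp_add]
    exact ⟨Submodule.add_mem _ f1 g1, Submodule.add_mem _ f2 g2, Submodule.add_mem _ f3 g3,
      Submodule.add_mem _ f4 g4⟩
  algebraMap_mem' := by
    intro r
    have e1 : LinearMap.fst ℚ (W M) (W M') ∘ₗ (algebraMap ℚ (Module.End ℚ (W M × W M')) r) ∘ₗ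
        LinearMap.inl ℚ (W M) (W M') = r • LinearMap.id := by
      ext; simp [Module.algebraMap_end_apply]
    have e2 : LinearMap.snd ℚ (W M) (W M') ∘ₗ (algebraMap ℚ (Module.End ℚ (W M × W M')) r) ∘ₗ
        LinearMap.inl ℚ (W M) (W M') = 0 := by
      ext; simp [Module.algebraMap_end_apply]
    have e3 : LinearMap.fst ℚ (W M) (W M') ∘ₗ (algebraMap ℚ (Module.End ℚ (W M × W M')) r) ∘ₗ
        LinearMap.inr ℚ (W M) (W M') = 0 := by
      ext; simp [Module.algebraMap_end_apply]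
    have e4 : LinearMap.snd ℚ (W M) (W M') ∘ₗ (algebraMap ℚ (Module.End ℚ (W M × W M')) r) ∘ₗ
        LinearMap.inr ℚ (W M) (W M') = r • LinearMap.id := by
      ext; simp [Module.algebraMap_end_apply]
    rw [Set.mem_ofPred_eq]
    unfold Blk
    rw [e1, e2, e3, e4]
    exact ⟨Submodule.smul_mem _ _ (T.id_mem M), Submodule.zero_mem _, Submodule.zero_mem _,
      Submodule.smul_mem _ _ (T.id_mem M')⟩

variable {T : TotalRealization C W} {X : HodgeLefschetz d (W M)} {X' : HodgeLefschetz d (W M')}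

theorem mem_algRing {f : Module.End ℚ (W M × W M')} :
    f ∈ algRing T M M' ↔ Blk T M M' f := Iff.rfl

theorem blk11 {f : W M →ₗ[ℚ] W M} (hf : f ∈ T.alg M M) :
    Blk T M M' (LinearMap.inl ℚ (W M) (W M') ∘ₗ f ∘ₗ LinearMap.fst ℚ (W M) (W M')) := by
  refine ⟨hf, ?_, ?_, ?_⟩
  · have h : LinearMap.snd ℚ (W M) (W M') ∘ₗ (LinearMap.inl ℚ (W M) (W M') ∘ₗ f ∘ₗ
        LinearMap.fst ℚ (W M) (W M')) ∘ₗ LinearMap.inl ℚ (W M) (W M') = 0 := by ext; simp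
    rw [h]; exact Submodule.zero_mem _
  · have h : LinearMap.fst ℚ (W M) (W M') ∘ₗ (LinearMap.inl ℚ (W M) (W M') ∘ₗ f ∘ₗ
        LinearMap.fst ℚ (W M) (W M')) ∘ₗ LinearMap.inr ℚ (W M) (W M') = 0 := by ext; simp
    rw [h]; exact Submodule.zero_mem _
  · have h : LinearMap.snd ℚ (W M) (W M') ∘ₗ (LinearMap.inl ℚ (W M) (W M') ∘ₗ f ∘ₗ
        LinearMap.fst ℚ (W M) (W M')) ∘ₗ LinearMap.inr ℚ (W M) (W M') = 0 := by ext; simp
    rw [h]; exact Submodule.zero_mem _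

theorem blk22 {f : W M' →ₗ[ℚ] W M'} (hf : f ∈ T.alg M' M') :
    Blk T M M' (LinearMap.inr ℚ (W M) (W M') ∘ₗ f ∘ₗ LinearMap.snd ℚ (W M) (W M')) := by
  refine ⟨?_, ?_, ?_, hf⟩
  · have h : LinearMap.fst ℚ (W M) (W M') ∘ₗ (LinearMap.inr ℚ (W M) (W M') ∘ₗ f ∘ₗ
        LinearMap.snd ℚ (W M) (W M')) ∘ₗ LinearMap.inl ℚ (W M) (W M') = 0 := by ext; simp
    rw [h]; exact Submodule.zero_mem _
  · have h : LinearMap.snd ℚ (W M) (W M') ∘ₗ (LinearMap.inr ℚ (W M) (W M') ∘ₗ f ∘ₗ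
        LinearMap.snd ℚ (W M) (W M')) ∘ₗ LinearMap.inl ℚ (W M) (W M') = 0 := by ext; simp
    rw [h]; exact Submodule.zero_mem _
  · have h : LinearMap.fst ℚ (W M) (W M') ∘ₗ (LinearMap.inr ℚ (W M) (W M') ∘ₗ f ∘ₗ
        LinearMap.snd ℚ (W M) (W M')) ∘ₗ LinearMap.inr ℚ (W M) (W M') = 0 := by ext; simp
    rw [h]; exact Submodule.zero_mem _

theorem blk21 {f : W M →ₗ[ℚ] W M'} (hf : f ∈ T.alg M M') :
    Blk T M M' (LinearMap.inr ℚ (W M) (W M') ∘ₗ f ∘ₗ LinearMap.fst ℚ (W M) (W M')) := by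
  refine ⟨?_, hf, ?_, ?_⟩
  · have h : LinearMap.fst ℚ (W M) (W M') ∘ₗ (LinearMap.inr ℚ (W M) (W M') ∘ₗ f ∘ₗ
        LinearMap.fst ℚ (W M) (W M')) ∘ₗ LinearMap.inl ℚ (W M) (W M') = 0 := by ext; simp
    rw [h]; exact Submodule.zero_mem _
  · have h : LinearMap.fst ℚ (W M) (W M') ∘ₗ (LinearMap.inr ℚ (W M) (W M') ∘ₗ f ∘ₗ
        LinearMap.fst ℚ (W M) (W M')) ∘ₗ LinearMap.inr ℚ (W M) (W M') = 0 := by ext; simp
    rw [h]; exact Submodule.zero_mem _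
  · have h : LinearMap.snd ℚ (W M) (W M') ∘ₗ (LinearMap.inr ℚ (W M) (W M') ∘ₗ f ∘ₗ
        LinearMap.fst ℚ (W M) (W M')) ∘ₗ LinearMap.inr ℚ (W M) (W M') = 0 := by ext; simp
    rw [h]; exact Submodule.zero_mem _

theorem blk12 {f : W M' →ₗ[ℚ] W M} (hf : f ∈ T.alg M' M) :
    Blk T M M' (LinearMap.inl ℚ (W M) (W M') ∘ₗ f ∘ₗ LinearMap.snd ℚ (W M) (W M')) := by
  refine ⟨?_, ?_, hf, ?_⟩
  · have h : LinearMap.fst ℚ (W M) (W M') ∘ₗ (LinearMap.inl ℚ (W M) (W M') ∘ₗ f ∘ₗ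
        LinearMap.snd ℚ (W M) (W M')) ∘ₗ LinearMap.inl ℚ (W M) (W M') = 0 := by ext; simp
    rw [h]; exact Submodule.zero_mem _
  · have h : LinearMap.snd ℚ (W M) (W M') ∘ₗ (LinearMap.inl ℚ (W M) (W M') ∘ₗ f ∘ₗ
        LinearMap.snd ℚ (W M) (W M')) ∘ₗ LinearMap.inl ℚ (W M) (W M') = 0 := by ext; simp
    rw [h]; exact Submodule.zero_mem _
  · have h : LinearMap.snd ℚ (W M) (W M') ∘ₗ (LinearMap.inl ℚ (W M) (W M') ∘ₗ f ∘ₗ
        LinearMap.snd ℚ (W M) (W M')) ∘ₗ LinearMap.inr ℚ (W M) (W M') = 0 := by ext; simp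
    rw [h]; exact Submodule.zero_mem _

/-- The adjoints stay in the ring. -/
theorem exists_adj_alg (h11 : Corr T X X) (h12 : Corr T X X') (h21 : Corr T X' X)
    (h22 : Corr T X' X') (r : algRing T M M') :
    ∃ r' : algRing T M M', ∀ x y, X.qq X' (r • x) y = X.qq X' x (r' • y) := by
  obtain ⟨h1, h2, h3, h4⟩ := mem_algRing.1 r.2
  obtain ⟨a, ha, ha'⟩ := h11.exists_adjoint h11 h1
  obtain ⟨b, hb, hb'⟩ := h12.exists_adjoint h21 h2
  obtain ⟨c, hc, hc'⟩ := h21.exists_adjoint h12 h3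
  obtain ⟨e, he, he'⟩ := h22.exists_adjoint h22 h4
  refine ⟨⟨_, add_mem (add_mem (add_mem (mem_algRing.2 (blk11 ha)) (mem_algRing.2 (blk12 hb)))
      (mem_algRing.2 (blk21 hc))) (mem_algRing.2 (blk22 he))⟩, ?_⟩
  intro x y
  have hx : x = LinearMap.inl ℚ (W M) (W M') x.1 + LinearMap.inr ℚ (W M) (W M') x.2 := by
    ext <;> simp
  set R : Module.End ℚ (W M × W M') := (r : Module.End ℚ (W M × W M')) with hR
  have e1 : (r • x).1 = (LinearMap.fst ℚ (W M) (W M') ∘ₗ R ∘ₗ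
      LinearMap.inl ℚ (W M) (W M')) x.1 + (LinearMap.fst ℚ (W M) (W M') ∘ₗ R ∘ₗ
      LinearMap.inr ℚ (W M) (W M')) x.2 := by
    change (R x).1 = _
    conv_lhs => rw [hx]
    rw [map_add]
    rfl
  have e2 : (r • x).2 = (LinearMap.snd ℚ (W M) (W M') ∘ₗ R ∘ₗ
      LinearMap.inl ℚ (W M) (W M')) x.1 + (LinearMap.snd ℚ (W M) (W M') ∘ₗ R ∘ₗ
      LinearMap.inr ℚ (W M) (W M')) x.2 := by
    change (R x).2 = _
    conv_lhs => rw [hx]
    rw [map_add]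
    rfl
  change X.qq X' (r • x) y = X.qq X' x ((LinearMap.inl ℚ (W M) (W M') ∘ₗ a ∘ₗ
      LinearMap.fst ℚ (W M) (W M') +
      LinearMap.inl ℚ (W M) (W M') ∘ₗ b ∘ₗ LinearMap.snd ℚ (W M) (W M') +
      LinearMap.inr ℚ (W M) (W M') ∘ₗ c ∘ₗ LinearMap.fst ℚ (W M) (W M') +
      LinearMap.inr ℚ (W M) (W M') ∘ₗ e ∘ₗ LinearMap.snd ℚ (W M) (W M') :
        (W M × W M') →ₗ[ℚ] (W M × W M')) y)
  have e3 : (LinearMap.inl ℚ (W M) (W M') ∘ₗ a ∘ₗ LinearMap.fst ℚ (W M) (W M') +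
      LinearMap.inl ℚ (W M) (W M') ∘ₗ b ∘ₗ LinearMap.snd ℚ (W M) (W M') +
      LinearMap.inr ℚ (W M) (W M') ∘ₗ c ∘ₗ LinearMap.fst ℚ (W M) (W M') +
      LinearMap.inr ℚ (W M) (W M') ∘ₗ e ∘ₗ LinearMap.snd ℚ (W M) (W M') :
        (W M × W M') →ₗ[ℚ] (W M × W M')) y = (a y.1 + b y.2, c y.1 + e y.2) := by
    ext <;> simp
  rw [qq_apply, qq_apply, e1, e2, e3]
  simp only [map_add, AddMonoidHom.add_apply]
  rw [ha', hb', hc', he']
  ring

section Fin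

variable [FiniteDimensional ℚ (W M)] [FiniteDimensional ℚ (W M')]

/-- The package of `X` in the ring of algebraic endomorphisms. -/
noncomputable def P₁ (h : Standard T X) (hc : Corr T X X) (X' : HodgeLefschetz d (W M')) :
    Pkg (algRing T M M') (W M × W M') (X.qq X') d :=
  restrict (X.pkg₁ X') (algRing T M M') (fun j => mem_algRing.2 (blk11 (pr_mem h hc j)))
    (mem_algRing.2 (blk11 (lef_mem h))) (fun j => mem_algRing.2 (blk11 (theta_mem h hc j)))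

/-- The package of `X'` in the ring of algebraic endomorphisms. -/
noncomputable def P₂ (X : HodgeLefschetz d (W M)) (h : Standard T X') (hc : Corr T X' X') :
    Pkg (algRing T M M') (W M × W M') (X.qq X') d :=
  restrict (X.pkg₂ X') (algRing T M M') (fun j => mem_algRing.2 (blk22 (pr_mem h hc j)))
    (mem_algRing.2 (blk22 (lef_mem h))) (fun j => mem_algRing.2 (blk22 (theta_mem h hc j)))

instance : FaithfulSMul (algRing T M M') (W M × W M') where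
  eq_of_smul_eq_smul := by
    intro r s h
    exact Subtype.ext (LinearMap.ext h)

theorem coe_P₁_ε (h : Standard T X) (hc : Corr T X X) (X' : HodgeLefschetz d (W M')) :
    (((P₁ h hc X').ε : algRing T M M') : Module.End ℚ (W M × W M')) =
      LinearMap.inl ℚ (W M) (W M') ∘ₗ LinearMap.fst ℚ (W M) (W M') :=
  (coe_restrict_ε _ _ _ _ _).trans (X.coe_ε₁ X')

theorem coe_P₂_ε (X : HodgeLefschetz d (W M)) (h : Standard T X') (hc : Corr T X' X') :
    (((P₂ X h hc).ε : algRing T M M') : Module.End ℚ (W M × W M')) =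
      LinearMap.inr ℚ (W M) (W M') ∘ₗ LinearMap.snd ℚ (W M) (W M') :=
  (coe_restrict_ε _ _ _ _ _).trans (X.coe_ε₂ X')

theorem coe_P₁_E (h : Standard T X) (hc : Corr T X X) (X' : HodgeLefschetz d (W M')) :
    (((P₁ h hc X').E : algRing T M M') : Module.End ℚ (W M × W M')) =
      LinearMap.inl ℚ (W M) (W M') ∘ₗ X.parE ∘ₗ LinearMap.fst ℚ (W M) (W M') :=
  (coe_restrict_E _ _ _ _ _).trans (X.coe_E₁ X')

theorem coe_P₂_E (X : HodgeLefschetz d (W M)) (h : Standard T X') (hc : Corr T X' X') :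
    (((P₂ X h hc).E : algRing T M M') : Module.End ℚ (W M × W M')) =
      LinearMap.inr ℚ (W M) (W M') ∘ₗ X'.parE ∘ₗ LinearMap.snd ℚ (W M) (W M') :=
  (coe_restrict_E _ _ _ _ _).trans (X.coe_E₂ X')

theorem coe_P₁_DE (h : Standard T X) (hc : Corr T X X) (X' : HodgeLefschetz d (W M')) :
    (((P₁ h hc X').DE : algRing T M M') : Module.End ℚ (W M × W M')) =
      LinearMap.inl ℚ (W M) (W M') ∘ₗ X.parD ∘ₗ LinearMap.fst ℚ (W M) (W M') :=
  (coe_restrict_DE _ _ _ _ _).trans (X.coe_DE₁ X')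

theorem coe_P₂_DE (X : HodgeLefschetz d (W M)) (h : Standard T X') (hc : Corr T X' X') :
    (((P₂ X h hc).DE : algRing T M M') : Module.End ℚ (W M × W M')) =
      LinearMap.inr ℚ (W M) (W M') ∘ₗ X'.parD ∘ₗ LinearMap.snd ℚ (W M) (W M') :=
  (coe_restrict_DE _ _ _ _ _).trans (X.coe_DE₂ X')

theorem regular_alg (s : Standard T X) (s' : Standard T X') (h11 : Corr T X X)
    (h12 : Corr T X X') (h21 : Corr T X' X) (h22 : Corr T X' X') (x : algRing T M M') :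
    ∃ z : algRing T M M', x * z * x = x := by
  refine regular_of (P₁ s h11 X') (P₂ X s' h22) (X.qq_symm X') ?_ ?_ ?_
    (exists_adj_alg h11 h12 h21 h22) x
  · refine Subtype.ext ?_
    change ((P₁ s h11 X').ε : Module.End ℚ (W M × W M')) +
      ((P₂ X s' h22).ε : Module.End ℚ (W M × W M')) = 1
    rw [coe_P₁_ε, coe_P₂_ε, decomp_id]
    rfl
  · refine Subtype.ext ?_
    change ((P₁ s h11 X').ε : Module.End ℚ (W M × W M')) *
      ((P₂ X s' h22).ε : Module.End ℚ (W M × W M')) = 0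
    rw [coe_P₁_ε, coe_P₂_ε]
    ext x <;> simp
  · refine Subtype.ext ?_
    change ((P₂ X s' h22).ε : Module.End ℚ (W M × W M')) *
      ((P₁ s h11 X').ε : Module.End ℚ (W M × W M')) = 0
    rw [coe_P₁_ε, coe_P₂_ε]
    ext x <;> simp

end Fin

end Pool.Agent.Lib.OrlovChow
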